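import Pool.Agent.Lib.MP_6ff8d9_an_h11.Rows

/-!
# MP_6ff8d9 PERRON, row MODF: the leafwise Poisson modification
-/

open Metric Filter Topology InnerProductSpace Real

namespace Pool.Agent.Lib.MP_6ff8d9_an.H35

open Pool.Agent.Lib.MP_6ff8d9_an Pool.Agent.Lib.MP_6ff8d9_an.H11

variable {n : ℕ}

theorem avg_eventually {U V : ℂ → ℝ} {c : ℂ} (h : U =ᶠ[𝓝 c] V) :
    ∀ᶠ r : ℝ in 𝓝[>] 0, circleAverage U c r = circleAverage V c r := by
  obtain ⟨ε, hε, hb⟩ := Metric.eventually_nhds_iff_ball.1 h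
  filter_upwards [Ioo_mem_nhdsGT hε] with r hr
  refine circleAverage_congr_sphere fun ζ hζ => hb ζ ?_
  rw [mem_sphere, abs_of_pos hr.1] at hζ
  rw [mem_ball, hζ]
  exact hr.2

theorem supM_loc {U : ℂ → ℝ} {s : Set ℂ}
    (h : ∀ c ∈ s, ∃ ε : ℝ, 0 < ε ∧ ∃ V : ℂ → ℝ, SupM V (ball c ε) ∧ U =ᶠ[𝓝 c] V) :
    SupM U s := by
  refine ⟨fun c hc => ?_, fun c hc => ?_⟩
  · obtain ⟨ε, hε, V, hV, hUV⟩ := h c hc
    have h1 : ContinuousAt V c := hV.1.continuousAt (ball_mem_nhds c hε)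
    exact (h1.congr hUV.symm).continuousWithinAt
  · obtain ⟨ε, hε, V, hV, hUV⟩ := h c hc
    filter_upwards [hV.2 c (mem_ball_self hε), avg_eventually hUV] with r h1 h2
    rw [h2, hUV.self_of_nhds]
    exact h1

theorem subM_loc {U : ℂ → ℝ} {s : Set ℂ}
    (h : ∀ c ∈ s, ∃ ε : ℝ, 0 < ε ∧ ∃ V : ℂ → ℝ, SubM V (ball c ε) ∧ U =ᶠ[𝓝 c] V) :
    SubM U s := by
  refine ⟨fun c hc => ?_, fun c hc => ?_⟩
  · obtain ⟨ε, hε, V, hV, hUV⟩ := h c hc
    have h1 : ContinuousAt V c := hV.1.continuousAt (ball_mem_nhds c hε)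
    exact (h1.congr hUV.symm).continuousWithinAt
  · obtain ⟨ε, hε, V, hV, hUV⟩ := h c hc
    filter_upwards [hV.2 c (mem_ball_self hε), avg_eventually hUV] with r h1 h2
    rw [h2, hUV.self_of_nhds]
    exact h1

theorem PI_congr {U V : ℂ → ℝ} {a : ℂ} {ρ : ℝ} (hρ : 0 < ρ) (h : Set.EqOn U V (sphere a ρ))
    (w : ℂ) : PI U a ρ w = PI V a ρ w := by
  unfold PI
  refine circleAverage_congr_sphere fun ζ hζ => ?_
  rw [abs_of_pos hρ] at hζ
  show poissonKernel a w ζ * U ζ = poissonKernel a w ζ * V ζ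
  rw [h hζ]

/-- the leafwise functions along a transport -/
theorem loc_T {f : Cn n → ℂ} {CV : Set ℂ} {a : ℂ} {ρ' : ℝ} {T : Cn n → ℂ → Cn n}
    (hsub : closedBall a ρ' ⊆ ball 0 1 \ CV) (hT : IsTr f a ρ' T) {u : Cn n → ℝ}
    (P : (ℂ → ℝ) → Set ℂ → Prop)
    (hu : ∀ z0, ‖z0‖ < 1 → f z0 ∉ CV → ∃ ε : ℝ, 0 < ε ∧ ∃ U : ℂ → ℝ,
      P U (ball (f z0) ε) ∧ ∀ᶠ z in 𝓝 z0, u z = U (f z))
    {z : Cn n} (hz : ‖z‖ < 1) (hfz : f z ∈ closedBall a ρ') {c : ℂ} (hc : c ∈ ball a ρ') :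
    ∃ ε : ℝ, 0 < ε ∧ ∃ V : ℂ → ℝ, P V (ball c ε) ∧ (fun c => u (T z c)) =ᶠ[𝓝 c] V := by
  have hcc := ball_subset_closedBall hc
  obtain ⟨hm, hfm⟩ := hT.mem z c hz hfz hcc
  obtain ⟨ε, hε, U, hU, huU⟩ := hu (T z c) hm (by rw [hfm]; exact (hsub hcc).2)
  rw [hfm] at hU
  refine ⟨ε, hε, U, hU, ?_⟩
  have hcont : ContinuousAt (T z) c :=
    (hT.cc z hz hfz).continuousAt (mem_of_superset (isOpen_ball.mem_nhds hc)
      ball_subset_closedBall)
  have h1 : ∀ᶠ c' in 𝓝 c, c' ∈ closedBall a ρ' :=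
    mem_of_superset (isOpen_ball.mem_nhds hc) ball_subset_closedBall
  filter_upwards [hcont.eventually huU, h1] with c' h2 h3
  rw [h2, (hT.mem z c' hz hfz h3).2]

theorem modf (hP : PMOD) (hL : LEAFT) : MODF := by
  intro n f CV a ρ ρ' T hS hρ hρρ' hsub hT u hu
  have hf : ContinuousOn f (ball 0 1) := by
    obtain ⟨Ω, -, hΩ, hd⟩ := hS.an
    exact hd.continuousOn.mono (ball_subset_closedBall.trans hΩ)
  obtain ⟨L1, L2, L3⟩ := hL n f a ρ' T hf hT
  have hcv : ∀ c ∈ closedBall a ρ', c ∉ CV := fun c hc => (hsub hc).2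
  have hbb : ball a ρ ⊆ ball a ρ' := ball_subset_ball hρρ'.le
  have hsc : sphere a ρ ⊆ closedBall a ρ' :=
    sphere_subset_closedBall.trans (closedBall_subset_closedBall hρρ'.le)
  -- the planar functions
  have hsup : ∀ z, ‖z‖ < 1 → f z ∈ closedBall a ρ' →
      SupM (fun c => u (T z c)) (ball a ρ') := fun z hz hfz =>
    supM_loc fun c hc => loc_T hsub hT SupM hu.2 hz hfz hc
  -- values over the disc near a point
  have hval : ∀ z0, ‖z0‖ < 1 → f z0 ∈ ball a ρ' → ∀ z, ‖z‖ < 1 → f z ∈ closedBall a ρ' →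
      Leaf f z (T z0 (f z)) → (∀ ζ ∈ closedBall a ρ', u (T z ζ) = u (T z0 ζ)) ∧
        u z = u (T z0 (f z)) := by
    intro z0 hz0 hfz0 z hz hfz hleaf
    have hcb := ball_subset_closedBall hfz0
    refine ⟨fun ζ hζ => ?_, hu.1 z _ hz (hcv _ hfz) hleaf⟩
    have hm := hT.mem z ζ hz hfz hζ
    have hm0 := hT.mem z0 ζ hz0 hcb hζ
    have e1 := hu.1 _ _ hm.1 (by rw [hm.2]; exact hcv _ hζ) (L1 z _ ζ hz hfz hζ hleaf)
    have e2 := hu.1 _ _ hm0.1 (by rw [hm0.2]; exact hcv _ hζ) (L2 z0 (f z) ζ hz0 hcb hfz hζ)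
    rw [e1, e2]
  have hloc : ∀ z0, ‖z0‖ < 1 → f z0 ∈ ball a ρ' → ∀ z, ‖z‖ < 1 → f z ∈ closedBall a ρ' →
      Leaf f z (T z0 (f z)) → MdF f a ρ T u z = Md (fun c => u (T z0 c)) a ρ (f z) := by
    intro z0 hz0 hfz0 z hz hfz hleaf
    obtain ⟨h1, h2⟩ := hval z0 hz0 hfz0 z hz hfz hleaf
    unfold MdF Md
    by_cases h : f z ∈ ball a ρ
    · rw [if_pos h, if_pos h]
      exact PI_congr hρ (fun ζ hζ => h1 ζ (hsc hζ)) _
    · rw [if_neg h, if_neg h]
      exact h2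
  have hself : ∀ z, ‖z‖ < 1 → f z ∈ ball a ρ →
      MdF f a ρ T u z = Md (fun c => u (T z c)) a ρ (f z) ∧ T z (f z) = z := by
    intro z hz hfz
    refine ⟨?_, hT.self z hz (ball_subset_closedBall (hbb hfz))⟩
    unfold MdF Md
    rw [if_pos hfz, if_pos hfz]
  refine ⟨⟨?_, ?_⟩, ?_, ?_, ?_⟩
  · -- leafwise constant
    intro z z' hz hzc hleaf
    have hz' : ‖z'‖ < 1 := hleaf.target_mem.1
    have hff : f z' = f z := hleaf.target_mem.2
    unfold MdF
    by_cases h : f z ∈ ball a ρ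
    · rw [if_pos h, if_pos (by rw [hff]; exact h), hff]
      refine PI_congr hρ (fun ζ hζ => ?_) _
      have hfz := ball_subset_closedBall (hbb h)
      have hm := hT.mem z ζ hz hfz (hsc hζ)
      exact hu.1 _ _ hm.1 (by rw [hm.2]; exact hcv _ (hsc hζ)) (L1 z z' ζ hz hfz (hsc hζ) hleaf)
    · rw [if_neg h, if_neg (by rw [hff]; exact h)]
      exact hu.1 z z' hz hzc hleaf
  · -- locally a super-mean-valued function
    intro z0 hz0 hc0
    have hcont : ContinuousAt f z0 :=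
      hf.continuousAt (isOpen_ball.mem_nhds (by simpa using hz0))
    have hnorm : ∀ᶠ z : Cn n in 𝓝 z0, ‖z‖ < 1 :=
      continuous_norm.continuousAt.eventually_lt continuousAt_const hz0
    by_cases h : f z0 ∈ ball a ρ'
    · obtain ⟨ε, hε, hb⟩ := Metric.isOpen_iff.1 isOpen_ball (f z0) h
      have hM := (hP a ρ ρ' (fun c => u (T z0 c)) hρ hρρ'
        (hsup z0 hz0 (ball_subset_closedBall h))).1
      refine ⟨ε, hε, Md (fun c => u (T z0 c)) a ρ,
        ⟨hM.1.mono hb, fun c hc => hM.2 c (hb hc)⟩, ?_⟩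
      filter_upwards [L3 z0 hz0 h, hnorm, hcont.eventually (isOpen_ball.mem_nhds h)]
        with z h1 h2 h3
      exact hloc z0 hz0 h z h2 (ball_subset_closedBall h3) h1
    · have h' : f z0 ∉ closedBall a ρ := fun hh => h (closedBall_subset_ball hρρ' hh)
      obtain ⟨ε, hε, U, hU, huU⟩ := hu.2 z0 hz0 hc0
      refine ⟨ε, hε, U, hU, ?_⟩
      filter_upwards [huU, hcont.eventually (isClosed_closedBall.isOpen_compl.mem_nhds h')]
        with z h1 h2
      rw [← h1]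
      unfold MdF
      rw [if_neg fun hh => h2 (ball_subset_closedBall hh)]
  · -- below `u`
    intro z hz hzc
    by_cases h : f z ∈ ball a ρ
    · obtain ⟨e1, e2⟩ := hself z hz h
      have h1 := (hP a ρ ρ' (fun c => u (T z c)) hρ hρρ'
        (hsup z hz (ball_subset_closedBall (hbb h)))).2.1 (f z) (hbb h)
      rw [e1]
      simpa [e2] using h1
    · unfold MdF
      rw [if_neg h]
  · -- above `u0`
    intro u0 hu0 hle z hz hzc
    by_cases h : f z ∈ ball a ρ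
    · obtain ⟨e1, e2⟩ := hself z hz h
      have hfz := ball_subset_closedBall (hbb h)
      have hsub0 : SubM (fun c => u0 (T z c)) (ball a ρ') :=
        subM_loc fun c hc => loc_T hsub hT SubM hu0.2 hz hfz hc
      have h1 := (hP a ρ ρ' (fun c => u (T z c)) hρ hρρ' (hsup z hz hfz)).2.2.1
        (fun c => u0 (T z c)) hsub0 (fun c hc => by
          have hm := hT.mem z c hz hfz (ball_subset_closedBall hc)
          exact hle _ hm.1 (by rw [hm.2]; exact hcv _ (ball_subset_closedBall hc)))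
        (f z) (hbb h)
      rw [e1]
      simpa [e2] using h1
    · unfold MdF
      rw [if_neg h]
      exact hle z hz hzc
  · -- harmonic
    intro z0 hz0 hfz0
    have hcb := ball_subset_closedBall (hbb hfz0)
    have hH := (hP a ρ ρ' (fun c => u (T z0 c)) hρ hρρ' (hsup z0 hz0 hcb)).2.2.2
    intro c hc
    refine (harmonicAt_congr_nhds ?_).1 (hH c hc)
    filter_upwards [isOpen_ball.mem_nhds hc] with c' hc'
    have hc1 := ball_subset_closedBall (hbb hc')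
    have hm := hT.mem z0 c' hz0 hcb hc1
    have h0 := L2 z0 c' c' hz0 hcb hc1 hc1
    have h1 : Leaf f (T z0 c') (T z0 (f (T z0 c'))) := by
      rw [hm.2]
      exact JoinedIn.refl ⟨hm.1, rfl⟩
    rw [hloc z0 hz0 (hbb hfz0) (T z0 c') hm.1 (by rw [hm.2]; exact hc1) h1, hm.2]

end Pool.Agent.Lib.MP_6ff8d9_an.H35
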